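import Pool.Graph.R_pool_sql_team_seeded_843ab51a.V11300.PR.Acyclic

/-!
# Pattern races for dice with two values: almost all parameters

The exceptional set of parameters `θ` has measure at most `5200 / s`; the sum of the survival
function of a pattern is the mean waiting time `EE`.
-/

set_option autoImplicit false

open MeasureTheory Finset Filter Topology
open Pool.Agent.V11300.PR

namespace Pool.Agent.KS6_65.PRM

/-- the measure of the exceptional set -/
theorem vol_bad {s : ℝ} (hs : 1000000 ≤ s) :
    volume (⋃ n : ℕ, BadLevel s (n + 1)) ≤ ENNReal.ofReal (5200 / s) := by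
  have hs0 : 0 < s := by linarith
  have hx : 256 / s ≤ 1 / 3000 := by rw [div_le_div_iff₀ hs0 (by norm_num)]; linarith
  have hx0 : 0 < 256 / s := by positivity
  refine (measure_iUnion_le _).trans ?_
  have h1 : ∀ n : ℕ, volume (BadLevel s (n + 1)) ≤
      ENNReal.ofReal (20 * (256 / s) * (256 / s) ^ n) := by
    intro n
    refine (BadLevel_volume hs (Nat.succ_pos n)).trans (ENNReal.ofReal_le_ofReal (le_of_eq ?_))
    rw [pow_succ]
    ring
  have hsummable : Summable fun n : ℕ => (20 * (256 / s) : ℝ) * (256 / s) ^ n :=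
    (summable_geometric_of_lt_one hx0.le (by linarith)).mul_left _
  calc ∑' n, volume (BadLevel s (n + 1)) ≤
        ∑' n : ℕ, ENNReal.ofReal (20 * (256 / s) * (256 / s) ^ n) := ENNReal.tsum_le_tsum h1
    _ = ENNReal.ofReal (∑' n : ℕ, 20 * (256 / s) * (256 / s) ^ n) :=
        (ENNReal.ofReal_tsum_of_nonneg (fun n => by positivity) hsummable).symm
    _ ≤ ENNReal.ofReal (5200 / s) := by
        apply ENNReal.ofReal_le_ofReal
        rw [tsum_mul_left, tsum_geometric_of_lt_one hx0.le (by linarith)]
        have h2 : (1 - 256 / s)⁻¹ ≤ 5200 / 5120 := by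
          rw [inv_le_comm₀ (by linarith) (by norm_num)]
          norm_num
          linarith
        calc 20 * (256 / s) * (1 - 256 / s)⁻¹ ≤ 20 * (256 / s) * (5200 / 5120) := by gcongr
          _ = 5200 / s := by ring

/-- the sum of a survival sequence -/
theorem tsum_surv {S : ℕ → ℝ} {L : ℕ} {c : ℕ → ℝ} {ρ : ℝ} (h : SurvSys S L c ρ) :
    ∑' n, S n = ∑ k ∈ range L, c k := by
  have h1 : ∀ k, HasSum (fun n => S (n + k) - S (n + k + 1)) (S k) := by
    intro k
    rw [hasSum_iff_tendsto_nat_of_nonneg (fun n => h.f_nonneg (n + k))]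
    have e : ∀ N : ℕ, ∑ i ∈ range N, (S (i + k) - S (i + k + 1)) = S k - S (N + k) := by
      intro N
      have := Finset.sum_range_sub' (fun i => S (i + k)) N
      simp only [zero_add] at this
      rw [← this]
      refine Finset.sum_congr rfl fun i _ => ?_
      congr 2
      omega
    simp only [e]
    have h2 : Tendsto (fun N => S (N + k)) atTop (𝓝 0) :=
      (tendsto_add_atTop_iff_nat k).2 h.tendsto_zero
    simpa using (tendsto_const_nhds (x := S k)).sub h2
  have h2 : HasSum (fun n => ∑ k ∈ range L, c k * (S (n + k) - S (n + k + 1)))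
      (∑ k ∈ range L, c k * S k) := hasSum_sum fun k _ => (h1 k).mul_left (c k)
  have h3 : (fun n => ∑ k ∈ range L, c k * (S (n + k) - S (n + k + 1))) = S :=
    funext fun n => (h.rec_eq n).symm
  rw [h3] at h2
  rw [h2.tsum_eq]
  refine Finset.sum_congr rfl fun k hk => ?_
  rw [h.one k (Finset.mem_range.1 hk), mul_one]

/-- the mean waiting time -/
theorem mean_eq {α : Type*} [Fintype α] [DecidableEq α] [MeasurableSpace α]
    [MeasurableSingletonClass α] (v : ProbVec α) (hv : ∀ a, 0 < v.p a) (A : List α)
    (hA : A ≠ []) :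
    ∑' n : ℕ, (source v) {x | (n : ℕ∞) < tau A x} = ENNReal.ofReal (EE v.p A) := by
  have sA := survSys_word hv v.sum_eq A hA
  have h1 : ∀ n : ℕ, (source v) {x | (n : ℕ∞) < tau A x} = ENNReal.ofReal (surv v.p A n) := by
    intro n
    rw [← prob_lt_tau, ofReal_measureReal]
  simp only [h1]
  rw [← ENNReal.ofReal_tsum_of_nonneg sA.nonneg sA.summ, tsum_surv sA]
  rfl

end Pool.Agent.KS6_65.PRM
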